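import Mathlib
import Pool.Agent.L7h58.BP.Stm

set_option autoImplicit false

/-!
# Project BP, part VAR
-/

namespace Pool.Agent.L7h25.BP

open Finset
open Pool.Agent.L7h58.BP

/-- `e(t)` -/
noncomputable def ee (t : ℝ) : ℂ := Complex.exp (2 * Real.pi * Complex.I * (t : ℂ))

theorem ee_zero : ee 0 = 1 := by simp [ee]

theorem ee_add (a b : ℝ) : ee (a + b) = ee a * ee b := by
  unfold ee
  rw [← Complex.exp_add]
  congr 1
  push_cast
  ring

theorem ee_pow (t : ℝ) (n : ℕ) : ee t ^ n = ee (n * t) := by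
  unfold ee
  rw [← Complex.exp_nat_mul]
  congr 1
  push_cast
  ring

theorem ee_norm (t : ℝ) : ‖ee t‖ = 1 := by
  unfold ee
  have : 2 * (Real.pi : ℂ) * Complex.I * (t : ℂ) = ((2 * Real.pi * t : ℝ) : ℂ) * Complex.I := by
    push_cast
    ring
  rw [this, Complex.norm_exp_ofReal_mul_I]

theorem ee_conj (t : ℝ) : (starRingEnd ℂ) (ee t) = ee (-t) := by
  unfold ee
  rw [← Complex.exp_conj]
  congr 1
  rw [map_mul, map_mul, map_mul, Complex.conj_I, Complex.conj_ofReal, Complex.conj_ofReal,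
    Complex.conj_ofNat]
  push_cast
  ring

theorem ee_eq_one_iff (t : ℝ) : ee t = 1 ↔ ∃ n : ℤ, t = n := by
  unfold ee
  rw [Complex.exp_eq_one_iff]
  constructor
  · rintro ⟨n, hn⟩
    refine ⟨n, ?_⟩
    have h2 : (2 * Real.pi * Complex.I : ℂ) ≠ 0 := by
      simp [Real.pi_ne_zero]
    have h3 : (2 * Real.pi * Complex.I : ℂ) * (t : ℂ) = (2 * Real.pi * Complex.I : ℂ) * (n : ℂ) := by
      rw [hn]
      ring
    have h4 := mul_left_cancel₀ h2 h3
    exact_mod_cast h4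
  · rintro ⟨n, rfl⟩
    refine ⟨n, ?_⟩
    push_cast
    ring

/-- orthogonality -/
theorem orth (k : ℕ) (hk : 0 < k) (j : ℤ) :
    ∑ h ∈ range k, ee ((h : ℝ) * (j : ℝ) / k) = if (k : ℤ) ∣ j then (k : ℂ) else 0 := by
  have hk' : (k : ℝ) ≠ 0 := by positivity
  have e1 : ∀ h ∈ range k, ee ((h : ℝ) * (j : ℝ) / k) = ee ((j : ℝ) / k) ^ h := by
    intro h _
    rw [ee_pow]
    congr 1
    ring
  rw [sum_congr rfl e1]
  split_ifs with hd
  · obtain ⟨c, rfl⟩ := hd
    have : ee ((((k : ℤ) * c : ℤ) : ℝ) / k) = 1 := by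
      rw [ee_eq_one_iff]
      refine ⟨c, ?_⟩
      push_cast
      field_simp
    rw [this]
    simp
  · have hne : ee ((j : ℝ) / k) ≠ 1 := by
      intro h
      rw [ee_eq_one_iff] at h
      obtain ⟨n, hn⟩ := h
      apply hd
      refine ⟨n, ?_⟩
      have : (j : ℝ) = k * n := by
        field_simp at hn
        linarith
      exact_mod_cast this
    have hpow : ee ((j : ℝ) / k) ^ k = 1 := by
      rw [ee_pow, ee_eq_one_iff]
      refine ⟨j, ?_⟩
      field_simp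
    rw [geom_sum_eq hne, hpow, sub_self, zero_div]

/-- the sum `G(x)` -/
noncomputable def G (U : ℕ) (x : ℝ) : ℂ := ∑ s ∈ range U, ee (-(x * s))

theorem G_zero (U : ℕ) : G U 0 = U := by
  simp [G, ee_zero]

theorem G_sq (U : ℕ) (x : ℝ) :
    G U x ^ 2 = ∑ p ∈ (range U) ×ˢ (range U), ee (-(x * ((p.1 + p.2 : ℕ) : ℝ))) := by
  rw [pow_two, G, sum_mul_sum, ← sum_product']
  refine sum_congr rfl fun p _ => ?_
  rw [← ee_add]
  congr 1
  push_cast
  ring

theorem mod_iff (m n a : ℕ) : a % m = n % m ↔ (m : ℤ) ∣ (n : ℤ) - a :=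
  Nat.modEq_iff_dvd (n := m) (a := a) (b := n)

/-- Fourier expansion of `W` -/
theorem W_eq (U m n : ℕ) (hm : 0 < m) :
    (W U m n : ℂ) = (1 / (m : ℂ)) *
      ∑ h ∈ range m, G U ((h : ℝ) / m) ^ 2 * ee ((h : ℝ) / m * n) := by
  have hm' : (m : ℂ) ≠ 0 := by exact_mod_cast hm.ne'
  have h1 : (W U m n : ℂ) = ∑ p ∈ (range U) ×ˢ (range U),
      (1 / (m : ℂ)) * ∑ h ∈ range m, ee ((h : ℝ) * (((n : ℤ) - ((p.1 + p.2 : ℕ) : ℤ) : ℤ) : ℝ) / m) := by
    unfold W
    rw [card_filter]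
    push_cast
    refine sum_congr rfl fun p _ => ?_
    have := orth m hm ((n : ℤ) - ((p.1 + p.2 : ℕ) : ℤ))
    push_cast at this
    rw [this]
    have hiff := mod_iff m n (p.1 + p.2)
    push_cast at hiff
    by_cases hc : (p.1 + p.2) % m = n % m
    · rw [if_pos hc, if_pos (hiff.1 hc)]
      field_simp
    · rw [if_neg hc, if_neg (fun h => hc (hiff.2 h))]
      simp
  rw [h1, ← mul_sum, sum_comm]
  congr 1
  refine sum_congr rfl fun h _ => ?_
  rw [G_sq, sum_mul]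
  refine sum_congr rfl fun p _ => ?_
  rw [← ee_add]
  congr 1
  push_cast
  ring

theorem W_sub (U m n : ℕ) (hm : 0 < m) :
    ((W U m n : ℂ) - (U : ℂ) ^ 2 / m) = (1 / (m : ℂ)) *
      ∑ h ∈ Ioo 0 m, G U ((h : ℝ) / m) ^ 2 * ee ((h : ℝ) / m * n) := by
  have hr : range m = insert 0 (Ioo 0 m) := by
    ext a
    simp only [mem_range, mem_insert, mem_Ioo]
    omega
  rw [W_eq U m n hm, hr, sum_insert (by simp)]
  simp only [Nat.cast_zero, zero_div, G_zero, zero_mul, ee_zero]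
  ring

/-- a residue class in `[0, U)` -/
theorem card_class (U k v : ℕ) (hk : 0 < k) :
    (((range U).filter (fun s => s % k = v % k)).card : ℝ) ≤ U / k + 1 := by
  have h1 : ((range U).filter (fun s => s % k = v % k)).card = U.count (fun s => s ≡ v [MOD k]) := by
    rw [Nat.count_eq_card_filter_range]
    rfl
  rw [h1, Nat.count_modEq_card U hk v]
  have h2 : ((U / k : ℕ) : ℝ) ≤ (U : ℝ) / k := Nat.cast_div_le
  push_cast
  split_ifs <;> push_cast <;> linarith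

theorem W_le (U k n : ℕ) (hk : 0 < k) : (W U k n : ℝ) ≤ U * (U / k + 1) := by
  have h1 : (W U k n : ℝ) = ∑ s ∈ range U,
      (((range U).filter (fun s' => (s + s') % k = n % k)).card : ℝ) := by
    unfold W
    rw [card_filter, sum_product]
    push_cast
    refine sum_congr rfl fun s _ => ?_
    rw [card_filter]
    push_cast
    rfl
  rw [h1]
  have h2 : ∀ s ∈ range U, (((range U).filter (fun s' => (s + s') % k = n % k)).card : ℝ) ≤
      U / k + 1 := by
    intro s _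
    by_cases hne : ((range U).filter (fun s' => (s + s') % k = n % k)).Nonempty
    · obtain ⟨v, hv⟩ := hne
      rw [mem_filter] at hv
      refine le_trans ?_ (card_class U k v hk)
      have hsub : ((range U).filter (fun s' => (s + s') % k = n % k)) ⊆
          ((range U).filter (fun s => s % k = v % k)) := by
        intro a ha
        rw [mem_filter] at ha ⊢
        refine ⟨ha.1, ?_⟩
        have : s + a ≡ s + v [MOD k] := by
          unfold Nat.ModEq
          rw [ha.2, hv.2]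
        exact Nat.ModEq.add_left_cancel' s this
      exact_mod_cast card_le_card hsub
    · rw [not_nonempty_iff_eq_empty] at hne
      rw [hne]
      simp
      positivity
  calc _ ≤ ∑ s ∈ range U, ((U : ℝ) / k + 1) := sum_le_sum h2
    _ = _ := by
      rw [sum_const, card_range, nsmul_eq_mul]

/-- the fourth moment -/
theorem fourth (U k : ℕ) (hk : 0 < k) :
    ∑ b ∈ range k, ‖G U ((b : ℝ) / k) ^ 2‖ ^ 2 =
      k * ∑ p ∈ (range U) ×ˢ (range U), (W U k (p.1 + p.2) : ℝ) := by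
  have hC : ((∑ b ∈ range k, ‖G U ((b : ℝ) / k) ^ 2‖ ^ 2 : ℝ) : ℂ) =
      ((k * ∑ p ∈ (range U) ×ˢ (range U), (W U k (p.1 + p.2) : ℝ) : ℝ) : ℂ) := by
    have e1 : ((∑ b ∈ range k, ‖G U ((b : ℝ) / k) ^ 2‖ ^ 2 : ℝ) : ℂ) =
        ∑ b ∈ range k, ∑ p ∈ (range U) ×ˢ (range U), ∑ q ∈ (range U) ×ˢ (range U),
          ee ((b : ℝ) * ((((p.1 + p.2 : ℕ) : ℤ) - ((q.1 + q.2 : ℕ) : ℤ) : ℤ) : ℝ) / k) := by
      rw [Complex.ofReal_sum]
      refine sum_congr rfl fun b _ => ?_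
      rw [Complex.ofReal_pow, ← Complex.conj_mul', G_sq, map_sum, sum_mul_sum]
      refine sum_congr rfl fun p _ => ?_
      refine sum_congr rfl fun q _ => ?_
      rw [ee_conj, ← ee_add]
      congr 1
      push_cast
      ring
    rw [e1, sum_comm]
    rw [Complex.ofReal_mul, Complex.ofReal_sum, mul_sum]
    refine sum_congr rfl fun p _ => ?_
    rw [sum_comm]
    unfold W
    rw [card_filter]
    push_cast
    rw [mul_sum]
    refine sum_congr rfl fun q _ => ?_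
    have := orth k hk (((p.1 + p.2 : ℕ) : ℤ) - ((q.1 + q.2 : ℕ) : ℤ))
    push_cast at this
    rw [this]
    have hiff := mod_iff k (p.1 + p.2) (q.1 + q.2)
    push_cast at hiff
    by_cases hc : (q.1 + q.2) % k = (p.1 + p.2) % k
    · rw [if_pos hc, if_pos (hiff.1 hc)]
      simp
    · rw [if_neg hc, if_neg (fun h => hc (hiff.2 h))]
      simp
  exact_mod_cast hC

theorem fourth_le (U k : ℕ) (hk : 0 < k) :
    ∑ b ∈ Ioo 0 k, ‖G U ((b : ℝ) / k) ^ 2‖ ^ 2 ≤ k * (U : ℝ) ^ 3 := by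
  have hk' : (k : ℝ) ≠ 0 := by positivity
  have hr : range k = insert 0 (Ioo 0 k) := by
    ext a
    simp only [mem_range, mem_insert, mem_Ioo]
    omega
  have h := fourth U k hk
  rw [hr, sum_insert (by simp)] at h
  simp only [Nat.cast_zero, zero_div, G_zero] at h
  have h2 : ‖((U : ℂ)) ^ 2‖ ^ 2 = (U : ℝ) ^ 4 := by
    simp
    ring
  rw [h2] at h
  have h3 : ∑ p ∈ (range U) ×ˢ (range U), (W U k (p.1 + p.2) : ℝ) ≤
      ∑ p ∈ (range U) ×ˢ (range U), (U : ℝ) * (U / k + 1) :=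
    sum_le_sum fun p _ => W_le U k _ hk
  rw [sum_const, card_product, card_range, nsmul_eq_mul] at h3
  push_cast at h3
  have h4 : (k : ℝ) * ∑ p ∈ (range U) ×ˢ (range U), (W U k (p.1 + p.2) : ℝ) ≤
      k * ((U : ℝ) * U * (U * (U / k + 1))) := mul_le_mul_of_nonneg_left h3 (by positivity)
  have h5 : (k : ℝ) * ((U : ℝ) * U * (U * (U / k + 1))) = (U : ℝ) ^ 4 + k * (U : ℝ) ^ 3 := by
    field_simp
  linarith

/-- the fractions in `(0, 1)` with denominator at most `Q` -/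
noncomputable def SS (Q : ℕ) : Finset ℚ :=
  (Icc 1 Q).biUnion (fun k => (Ioo 0 k).image (fun b : ℕ => (b : ℚ) / k))

theorem mem_SS {Q : ℕ} {x : ℚ} (hx : x ∈ SS Q) : 0 < x ∧ x < 1 ∧ x.den ≤ Q := by
  unfold SS at hx
  rw [mem_biUnion] at hx
  obtain ⟨k, hk, hx⟩ := hx
  rw [mem_image] at hx
  obtain ⟨b, hb, rfl⟩ := hx
  rw [mem_Ioo] at hb
  rw [mem_Icc] at hk
  have hk0 : (0 : ℚ) < k := by exact_mod_cast hk.1
  refine ⟨div_pos (by exact_mod_cast hb.1) hk0, ?_, ?_⟩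
  · rw [div_lt_one hk0]
    exact_mod_cast hb.2
  · have h1 : ((b : ℚ) / k).den ∣ k := by
      have := Rat.den_dvd (b : ℤ) (k : ℤ)
      rw [Rat.divInt_eq_div, Int.cast_natCast, Int.cast_natCast] at this
      exact Int.natCast_dvd_natCast.1 this
    exact (Nat.le_of_dvd hk.1 h1).trans hk.2

/-- the fractions with a denominator dividing `m` -/
theorem filter_SS {Q m : ℕ} (hm : 0 < m) (hmQ : m ≤ Q) :
    (SS Q).filter (fun x => x.den ∣ m) = (Ioo 0 m).image (fun b : ℕ => (b : ℚ) / m) := by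
  have hm0 : (0 : ℚ) < m := by exact_mod_cast hm
  ext x
  rw [mem_filter, mem_image]
  constructor
  · rintro ⟨hx, c, hc⟩
    obtain ⟨h0, h1, -⟩ := mem_SS hx
    have hnum : 0 < x.num := Rat.num_pos.2 h0
    have hd : 0 < x.den := x.den_pos
    have hc0 : 0 < c := by
      rcases Nat.eq_zero_or_pos c with h | h
      · rw [h] at hc
        omega
      · exact h
    have hx2 : x = x.num / x.den := (Rat.num_div_den x).symm
    have hval : (((x.num.toNat * c : ℕ) : ℚ)) / m = x := by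
      have e : ((x.num.toNat : ℕ) : ℚ) = x.num := by
        have : ((x.num.toNat : ℕ) : ℤ) = x.num := Int.toNat_of_nonneg hnum.le
        exact_mod_cast this
      push_cast
      rw [e, hc]
      push_cast
      have hc1 : (c : ℚ) ≠ 0 := by exact_mod_cast hc0.ne'
      rw [mul_div_mul_right _ _ hc1]
      exact Rat.num_div_den x
    refine ⟨x.num.toNat * c, ?_, hval⟩
    rw [mem_Ioo]
    constructor
    · apply Nat.mul_pos _ hc0
      omega
    · have : (((x.num.toNat * c : ℕ) : ℚ)) < m := by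
        rw [← hval, div_lt_one hm0] at h1
        exact h1
      exact_mod_cast this
  · rintro ⟨b, hb, rfl⟩
    refine ⟨?_, ?_⟩
    · unfold SS
      rw [mem_biUnion]
      refine ⟨m, mem_Icc.2 ⟨hm, hmQ⟩, ?_⟩
      rw [mem_image]
      exact ⟨b, hb, rfl⟩
    · have := Rat.den_dvd (b : ℤ) (m : ℤ)
      rw [Rat.divInt_eq_div, Int.cast_natCast, Int.cast_natCast] at this
      exact Int.natCast_dvd_natCast.1 this

theorem sum_frac {Q m : ℕ} (hm : 0 < m) (hmQ : m ≤ Q) {β : Type} [AddCommMonoid β] (g : ℚ → β) :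
    ∑ x ∈ (SS Q).filter (fun x => x.den ∣ m), g x = ∑ b ∈ Ioo 0 m, g ((b : ℚ) / m) := by
  rw [filter_SS hm hmQ, sum_image]
  intro a _ b _ hab
  have hm0 : (m : ℚ) ≠ 0 := by exact_mod_cast hm.ne'
  have hab' : (a : ℚ) / m = (b : ℚ) / m := hab
  rw [div_left_inj' hm0] at hab'
  exact_mod_cast hab'

/-- the weights -/
noncomputable def wt (M : Finset ℕ) (k : ℕ) : ℝ := ∑ m ∈ M.filter (fun m => k ∣ m), (1 : ℝ) / m

theorem wt_le {M : Finset ℕ} {L : ℕ} (hL : 1 ≤ L) (hM : ∀ m ∈ M, L ≤ m ∧ m ≤ 16 * L) (k : ℕ)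
    (hk : 0 < k) : wt M k ≤ 16 / k := by
  have hL0 : (0 : ℝ) < L := by exact_mod_cast hL
  have hk0 : (0 : ℝ) < k := by exact_mod_cast hk
  unfold wt
  have h1 : ∑ m ∈ M.filter (fun m => k ∣ m), (1 : ℝ) / m ≤
      ∑ m ∈ M.filter (fun m => k ∣ m), (1 : ℝ) / L := by
    refine sum_le_sum fun m hm => ?_
    rw [mem_filter] at hm
    apply one_div_le_one_div_of_le hL0
    exact_mod_cast (hM m hm.1).1
  refine h1.trans ?_
  rw [sum_const, nsmul_eq_mul]
  have h2 : (M.filter (fun m => k ∣ m)).card ≤ (16 * L) / k := by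
    rw [← Nat.Ioc_filter_dvd_card_eq_div]
    apply card_le_card
    intro m hm
    rw [mem_filter] at hm
    rw [mem_filter, mem_Ioc]
    have := hM m hm.1
    exact ⟨⟨by omega, this.2⟩, hm.2⟩
  have h3 : ((M.filter (fun m => k ∣ m)).card : ℝ) ≤ (16 * L : ℝ) / k := by
    refine le_trans (Nat.cast_le.2 h2) ?_
    refine Nat.cast_div_le.trans ?_
    push_cast
    exact le_rfl
  calc ((M.filter (fun m => k ∣ m)).card : ℝ) * (1 / L) ≤ (16 * L : ℝ) / k * (1 / L) := by gcongr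
    _ = 16 / k := by
      field_simp

theorem wt_nonneg (M : Finset ℕ) (k : ℕ) : 0 ≤ wt M k := by
  unfold wt
  positivity

/-- the sum over the fractions -/
theorem expansion (L U : ℕ) (M : Finset ℕ) (hL : 1 ≤ L) (hM : ∀ m ∈ M, L ≤ m ∧ m ≤ 16 * L)
    (n : ℕ) :
    ((∑ m ∈ M, ((W U m n : ℝ) - (U : ℝ) ^ 2 / m) : ℝ) : ℂ) =
      ∑ x ∈ SS (16 * L), (G U (x : ℝ) ^ 2 * (wt M x.den : ℂ)) *
        Complex.exp (2 * Real.pi * Complex.I * (((x : ℝ) * n : ℝ) : ℂ)) := by
  have h1 : ∀ m ∈ M, (((W U m n : ℝ) - (U : ℝ) ^ 2 / m : ℝ) : ℂ) =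
      ∑ x ∈ SS (16 * L), if x.den ∣ m then
        (1 / (m : ℂ)) * (G U (x : ℝ) ^ 2 * ee ((x : ℝ) * n)) else 0 := by
    intro m hm
    have hm1 := hM m hm
    have hm0 : 0 < m := by omega
    have h := W_sub U m n hm0
    push_cast
    rw [h, ← sum_filter, sum_frac hm0 hm1.2, mul_sum]
    refine sum_congr rfl fun b _ => ?_
    push_cast
    rfl
  rw [Complex.ofReal_sum, sum_congr rfl h1, sum_comm]
  refine sum_congr rfl fun x _ => ?_
  rw [← sum_filter]
  unfold wt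
  rw [Complex.ofReal_sum, mul_sum, sum_mul]
  refine sum_congr rfl fun m _ => ?_
  have : Complex.exp (2 * Real.pi * Complex.I * (((x : ℝ) * n : ℝ) : ℂ)) = ee ((x : ℝ) * n) := rfl
  rw [this]
  push_cast
  ring

/-- the sum of the squares of the coefficients -/
theorem coef_sum (L U : ℕ) (M : Finset ℕ) (hL : 2 ≤ L) (hM : ∀ m ∈ M, L ≤ m ∧ m ≤ 16 * L) :
    ∑ x ∈ SS (16 * L), ‖G U (x : ℝ) ^ 2 * (wt M x.den : ℂ)‖ ^ 2 ≤
      256 * (U : ℝ) ^ 3 * (7 * Real.log L) := by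
  have h1 : ∑ x ∈ SS (16 * L), ‖G U (x : ℝ) ^ 2 * (wt M x.den : ℂ)‖ ^ 2 =
      ∑ k ∈ Icc 1 (16 * L), ∑ x ∈ (SS (16 * L)).filter (fun x => x.den = k),
        ‖G U (x : ℝ) ^ 2 * (wt M x.den : ℂ)‖ ^ 2 := by
    rw [sum_fiberwise_of_maps_to]
    intro x hx
    obtain ⟨-, -, h⟩ := mem_SS hx
    exact mem_Icc.2 ⟨x.den_pos, h⟩
  rw [h1]
  have h2 : ∀ k ∈ Icc 1 (16 * L), ∑ x ∈ (SS (16 * L)).filter (fun x => x.den = k),
        ‖G U (x : ℝ) ^ 2 * (wt M x.den : ℂ)‖ ^ 2 ≤ 256 * (U : ℝ) ^ 3 * (1 / k) := by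
    intro k hk
    rw [mem_Icc] at hk
    have hk0 : (0 : ℝ) < k := by exact_mod_cast hk.1
    calc ∑ x ∈ (SS (16 * L)).filter (fun x => x.den = k),
        ‖G U (x : ℝ) ^ 2 * (wt M x.den : ℂ)‖ ^ 2
        ≤ ∑ x ∈ (SS (16 * L)).filter (fun x => x.den = k),
          (16 / k) ^ 2 * ‖G U (x : ℝ) ^ 2‖ ^ 2 := by
          refine sum_le_sum fun x hx => ?_
          rw [mem_filter] at hx
          rw [norm_mul, mul_pow, mul_comm, hx.2, Complex.norm_real, Real.norm_eq_abs,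
            abs_of_nonneg (wt_nonneg M k)]
          have := wt_le (by omega) hM k (by omega)
          have h0 := wt_nonneg M k
          gcongr
      _ ≤ ∑ x ∈ (SS (16 * L)).filter (fun x => x.den ∣ k),
          (16 / k) ^ 2 * ‖G U (x : ℝ) ^ 2‖ ^ 2 := by
          apply sum_le_sum_of_subset_of_nonneg
          · intro x hx
            rw [mem_filter] at hx ⊢
            exact ⟨hx.1, by rw [hx.2]⟩
          · intro x _ _
            positivity
      _ = (16 / k) ^ 2 * ∑ b ∈ Ioo 0 k, ‖G U ((b : ℝ) / k) ^ 2‖ ^ 2 := by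
          rw [sum_frac (by omega) hk.2, mul_sum]
          refine sum_congr rfl fun b _ => ?_
          push_cast
          rfl
      _ ≤ (16 / k) ^ 2 * (k * (U : ℝ) ^ 3) := by
          have := fourth_le U k (by omega)
          gcongr
      _ = 256 * (U : ℝ) ^ 3 * (1 / k) := by
          field_simp
          norm_num
          ring
  refine (sum_le_sum h2).trans ?_
  rw [← mul_sum]
  have h3 : ∑ k ∈ Icc 1 (16 * L), (1 : ℝ) / k ≤ 1 + Real.log (16 * L) := by
    have h := harmonic_le_one_add_log (16 * L)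
    have e : ((harmonic (16 * L) : ℚ) : ℝ) = ∑ k ∈ Icc 1 (16 * L), (1 : ℝ) / k := by
      rw [harmonic_eq_sum_Icc]
      push_cast
      refine sum_congr rfl fun k _ => ?_
      rw [one_div]
    rw [← e]
    push_cast at h ⊢
    exact h
  have hlog : Real.log 2 ≤ Real.log L := Real.log_le_log (by norm_num) (by exact_mod_cast hL)
  have h4 : 1 + Real.log (16 * L) ≤ 7 * Real.log L := by
    have hL0 : (L : ℝ) ≠ 0 := by positivity
    rw [Real.log_mul (by norm_num) hL0]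
    have h16 : Real.log 16 = 4 * Real.log 2 := by
      rw [show (16 : ℝ) = 2 ^ 4 by norm_num, Real.log_pow]
      norm_num
    rw [h16]
    have := Real.log_two_gt_d9
    linarith
  have h5 := h3.trans h4
  gcongr

/-- **VAR** -/
theorem s_VAR (hD : S_DLS) : S_VAR := by
  obtain ⟨K, hK, hD⟩ := hD
  refine ⟨K * 256 * (256 * 7), by positivity, ?_⟩
  intro N L U M hU hL hM
  have h := hD N (16 * L) (SS (16 * L)) (fun x => G U (x : ℝ) ^ 2 * (wt M x.den : ℂ)) (by omega)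
    (fun x hx => ⟨(mem_SS hx).1.le, (mem_SS hx).2.1, (mem_SS hx).2.2⟩)
  have h1 : ∀ n ∈ range (N + 1), (∑ m ∈ M, ((W U m n : ℝ) - (U : ℝ) ^ 2 / m)) ^ 2 =
      ‖∑ x ∈ SS (16 * L), (G U (x : ℝ) ^ 2 * (wt M x.den : ℂ)) *
        Complex.exp (2 * Real.pi * Complex.I * (((x : ℝ) * n : ℝ) : ℂ))‖ ^ 2 := by
    intro n _
    rw [← expansion L U M (by omega) hM n, Complex.norm_real, Real.norm_eq_abs, sq_abs]
  rw [sum_congr rfl h1]
  refine h.trans ?_
  have hc := coef_sum L U M hL hM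
  have hlog : 0 ≤ Real.log L := Real.log_natCast_nonneg L
  calc K * ((N : ℝ) + ((16 * L : ℕ) : ℝ) ^ 2) *
        ∑ x ∈ SS (16 * L), ‖G U (x : ℝ) ^ 2 * (wt M x.den : ℂ)‖ ^ 2
      ≤ K * ((N : ℝ) + ((16 * L : ℕ) : ℝ) ^ 2) * (256 * (U : ℝ) ^ 3 * (7 * Real.log L)) := by
        gcongr
    _ ≤ K * (256 * ((N : ℝ) + (L : ℝ) ^ 2)) * (256 * (U : ℝ) ^ 3 * (7 * Real.log L)) := by
        have : (N : ℝ) + ((16 * L : ℕ) : ℝ) ^ 2 ≤ 256 * ((N : ℝ) + (L : ℝ) ^ 2) := by
          push_cast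
          have : (0 : ℝ) ≤ N := by positivity
          nlinarith
        gcongr
    _ = _ := by ring

end Pool.Agent.L7h25.BP
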