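import Mathlib
import Pool.Agent.L7h58.BP.Stm3
import Pool.Agent.L7h25.BP.Var
import Pool.Agent.Cov.PNT

set_option autoImplicit false

/-!
# Project BP, part ALN (the Fejér kernel)
-/

namespace Pool.Agent.L7h25.BP

open Finset
open Pool.Agent.L7h58.BP

theorem ex_eq (x : ℝ) : ex x = ee x := rfl

/-- the geometric sum -/
noncomputable def DD (H : ℕ) (x : ℝ) : ℂ := ∑ h ∈ range H, ee ((h : ℝ) * x)

theorem DD_le (H : ℕ) (x : ℝ) : ‖DD H x‖ ≤ H := by
  unfold DD
  refine (norm_sum_le _ _).trans ?_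
  have e : ∑ h ∈ range H, ‖ee ((h : ℝ) * x)‖ = ∑ h ∈ range H, (1 : ℝ) :=
    sum_congr rfl (fun h _ => ee_norm ((h : ℝ) * x))
  rw [e]
  simp

theorem ee_int_add (k : ℤ) (x : ℝ) : ee ((k : ℝ) + x) = ee x := by
  rw [ee_add, (ee_eq_one_iff _).2 ⟨k, rfl⟩, one_mul]

theorem norm_ee_sub_one (x : ℝ) : ‖ee x - 1‖ = 2 * |Real.sin (Real.pi * x)| := by
  have h := Complex.norm_exp_I_mul_ofReal_sub_one (2 * Real.pi * x)
  have e : Complex.I * ((2 * Real.pi * x : ℝ) : ℂ) = 2 * Real.pi * Complex.I * (x : ℂ) := by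
    push_cast
    ring
  rw [e] at h
  unfold ee
  rw [h, norm_mul, Real.norm_eq_abs, Real.norm_eq_abs, abs_of_pos (by norm_num : (0 : ℝ) < 2)]
  congr 2
  ring_nf

theorem sin_low {r δ : ℝ} (hδ : 0 < δ) (h1 : δ ≤ r) (h2 : r ≤ 1 - δ) :
    2 * δ ≤ |Real.sin (Real.pi * r)| := by
  have hpi := Real.pi_pos
  have key : ∀ s : ℝ, δ ≤ s → s ≤ 1 / 2 → 2 * δ ≤ Real.sin (Real.pi * s) := by
    intro s hs1 hs2
    have h := Real.mul_le_sin (x := Real.pi * s) (mul_nonneg hpi.le (by linarith)) (by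
      have := mul_le_mul_of_nonneg_left hs2 hpi.le
      linarith)
    have e : 2 / Real.pi * (Real.pi * s) = 2 * s := by
      field_simp
    rw [e] at h
    linarith
  rcases le_total r (1 / 2) with h | h
  · exact (key r h1 h).trans (le_abs_self _)
  · have h3 := key (1 - r) (by linarith) (by linarith)
    have e : Real.sin (Real.pi * (1 - r)) = Real.sin (Real.pi * r) := by
      rw [mul_sub, mul_one, Real.sin_pi_sub]
    rw [e] at h3
    exact h3.trans (le_abs_self _)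

theorem DD_far {H : ℕ} {x δ : ℝ} (hδ : 0 < δ) (h1 : δ ≤ Int.fract x) (h2 : Int.fract x ≤ 1 - δ) :
    ‖DD H x‖ ≤ 1 / (2 * δ) := by
  have hx : ee x = ee (Int.fract x) := by
    conv_lhs => rw [← Int.floor_add_fract x, ee_int_add]
  have h3 : 4 * δ ≤ ‖ee x - 1‖ := by
    rw [hx, norm_ee_sub_one]
    have := sin_low hδ h1 h2
    linarith
  have hne : ee x ≠ 1 := by
    intro h
    rw [h, sub_self, norm_zero] at h3
    linarith
  have e1 : DD H x = (ee x ^ H - 1) / (ee x - 1) := by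
    rw [← geom_sum_eq hne]
    unfold DD
    refine sum_congr rfl fun h _ => ?_
    rw [ee_pow]
  have h4 : ‖ee x ^ H - 1‖ ≤ 2 := by
    refine (norm_sub_le _ _).trans ?_
    rw [norm_pow, ee_norm, one_pow, norm_one]
    norm_num
  rw [e1, norm_div]
  calc ‖ee x ^ H - 1‖ / ‖ee x - 1‖ ≤ 2 / (4 * δ) := by gcongr
    _ = 1 / (2 * δ) := by
      field_simp
      norm_num

/-- expansion of the square -/
theorem DD_sq (H : ℕ) (x : ℝ) : ((‖DD H x‖ ^ 2 : ℝ) : ℂ) =
    ∑ h ∈ range H, ∑ h' ∈ range H, ee (((h : ℝ) - h') * x) := by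
  rw [Complex.ofReal_pow, ← Complex.mul_conj', DD, map_sum, sum_mul_sum]
  refine sum_congr rfl fun h _ => sum_congr rfl fun h' _ => ?_
  rw [ee_conj, ← ee_add]
  congr 1
  ring

/-- the exponential sums -/
noncomputable def SL (L n : ℕ) (j : ℤ) : ℂ :=
  ∑ m ∈ Ioc L (2 * L), ((ArithmeticFunction.vonMangoldt m : ℝ) : ℂ) *
    ee (((j : ℝ) * n) / ((m : ℝ) - 1))

theorem SL_neg (L n : ℕ) (j : ℤ) : ‖SL L n (-j)‖ = ‖SL L n j‖ := by
  have : SL L n (-j) = (starRingEnd ℂ) (SL L n j) := by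
    unfold SL
    rw [map_sum]
    refine sum_congr rfl fun m _ => ?_
    rw [map_mul, Complex.conj_ofReal, ee_conj]
    congr 2
    push_cast
    ring
  rw [this, Complex.norm_conj]

/-- lower bound for the sum of the kernel -/
theorem lower {L n H : ℕ} {B α : ℝ}
    (hE : ∀ h : ℕ, 1 ≤ h → h < H → ‖SL L n h‖ ≤ B) (hB0 : 0 ≤ B) :
    H * (∑ m ∈ Ioc L (2 * L), ArithmeticFunction.vonMangoldt m) - (H : ℝ) ^ 2 * B ≤
      ∑ m ∈ Ioc L (2 * L), ArithmeticFunction.vonMangoldt m *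
        ‖DD H ((n : ℝ) / ((m : ℝ) - 1) - α)‖ ^ 2 := by
  set S0 : ℝ := ∑ m ∈ Ioc L (2 * L), ArithmeticFunction.vonMangoldt m with hS0
  set X : ℝ := ∑ m ∈ Ioc L (2 * L), ArithmeticFunction.vonMangoldt m *
        ‖DD H ((n : ℝ) / ((m : ℝ) - 1) - α)‖ ^ 2 with hX
  have h1 : (X : ℂ) = ∑ h ∈ range H, ∑ h' ∈ range H,
      ee (-(((h : ℝ) - h') * α)) * SL L n ((h : ℤ) - h') := by
    rw [hX, Complex.ofReal_sum]
    have e : ∀ m ∈ Ioc L (2 * L), ((ArithmeticFunction.vonMangoldt m *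
        ‖DD H ((n : ℝ) / ((m : ℝ) - 1) - α)‖ ^ 2 : ℝ) : ℂ) =
        ∑ h ∈ range H, ∑ h' ∈ range H, ((ArithmeticFunction.vonMangoldt m : ℝ) : ℂ) *
          ee (((h : ℝ) - h') * ((n : ℝ) / ((m : ℝ) - 1) - α)) := by
      intro m _
      rw [Complex.ofReal_mul, DD_sq, mul_sum]
      refine sum_congr rfl fun h _ => ?_
      rw [mul_sum]
    rw [sum_congr rfl e, sum_comm]
    refine sum_congr rfl fun h _ => ?_
    rw [sum_comm]
    refine sum_congr rfl fun h' _ => ?_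
    unfold SL
    rw [mul_sum]
    refine sum_congr rfl fun m _ => ?_
    rw [mul_left_comm, ← ee_add]
    congr 2
    push_cast
    ring
  have h2 : ((H * S0 : ℝ) : ℂ) = ∑ h ∈ range H, ∑ h' ∈ range H,
      (if h' = h then (S0 : ℂ) else 0) := by
    have : ∀ h ∈ range H, ∑ h' ∈ range H, (if h' = h then (S0 : ℂ) else 0) = S0 := by
      intro h hh
      rw [sum_ite_eq' (range H) h (fun _ => (S0 : ℂ)), if_pos hh]
    rw [sum_congr rfl this, sum_const, card_range, nsmul_eq_mul]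
    push_cast
    rfl
  have h3 : ‖((X - H * S0 : ℝ) : ℂ)‖ ≤ (H : ℝ) ^ 2 * B := by
    rw [Complex.ofReal_sub, h1, h2, ← sum_sub_distrib]
    have hterm : ∀ h ∈ range H, ∀ h' ∈ range H,
        ‖ee (-(((h : ℝ) - h') * α)) * SL L n ((h : ℤ) - h') - (if h' = h then (S0 : ℂ) else 0)‖ ≤
          B := by
      intro h hh h' hh'
      rw [mem_range] at hh hh'
      split_ifs with heq
      · subst heq
        have e1 : SL L n ((h' : ℤ) - h') = S0 := by
          unfold SL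
          rw [hS0, Complex.ofReal_sum]
          refine sum_congr rfl fun m _ => ?_
          rw [sub_self, Int.cast_zero, zero_mul, zero_div, ee_zero, mul_one]
        rw [e1, sub_self, zero_mul, neg_zero, ee_zero, one_mul, sub_self, norm_zero]
        exact hB0
      · rw [sub_zero, norm_mul, ee_norm, one_mul]
        rcases lt_or_gt_of_ne heq with hlt | hlt
        · have e1 : (h : ℤ) - h' = ((h - h' : ℕ) : ℤ) := by omega
          rw [e1]
          exact hE (h - h') (by omega) (by omega)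
        · have e1 : (h : ℤ) - h' = -((h' - h : ℕ) : ℤ) := by omega
          rw [e1, SL_neg]
          exact hE (h' - h) (by omega) (by omega)
    refine (norm_sum_le _ _).trans ?_
    calc ∑ h ∈ range H, ‖∑ h' ∈ range H, ee (-(((h : ℝ) - h') * α)) * SL L n ((h : ℤ) - h') -
          ∑ h' ∈ range H, (if h' = h then (S0 : ℂ) else 0)‖
        ≤ ∑ h ∈ range H, (H : ℝ) * B := by
          refine sum_le_sum fun h hh => ?_
          rw [← sum_sub_distrib]
          refine (norm_sum_le _ _).trans ?_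
          refine (sum_le_sum fun h' hh' => hterm h hh h' hh').trans ?_
          rw [sum_const, card_range, nsmul_eq_mul]
      _ = (H : ℝ) ^ 2 * B := by
          rw [sum_const, card_range, nsmul_eq_mul]
          ring
  rw [Complex.norm_real, Real.norm_eq_abs] at h3
  have := neg_le_of_abs_le h3
  linarith

/-- upper bound -/
theorem upper {L n H : ℕ} {T α : ℝ}
    (hbad : ∀ l : ℕ, l.Prime → L < l → l ≤ 2 * L →
      ‖DD H ((n : ℝ) / ((l : ℝ) - 1) - α)‖ ≤ T) :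
    ∑ m ∈ Ioc L (2 * L), ArithmeticFunction.vonMangoldt m *
        ‖DD H ((n : ℝ) / ((m : ℝ) - 1) - α)‖ ^ 2 ≤
      T ^ 2 * Chebyshev.psi ((2 * L : ℕ) : ℝ) +
        (H : ℝ) ^ 2 * (Chebyshev.psi ((2 * L : ℕ) : ℝ) - Chebyshev.theta ((2 * L : ℕ) : ℝ)) := by
  have h0 : ∀ m : ℕ, 0 ≤ ArithmeticFunction.vonMangoldt m := fun m =>
    ArithmeticFunction.vonMangoldt_nonneg
  have hterm : ∀ m ∈ Ioc L (2 * L), ArithmeticFunction.vonMangoldt m *
        ‖DD H ((n : ℝ) / ((m : ℝ) - 1) - α)‖ ^ 2 ≤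
        T ^ 2 * ArithmeticFunction.vonMangoldt m +
          (H : ℝ) ^ 2 * (if ¬ m.Prime then ArithmeticFunction.vonMangoldt m else 0) := by
    intro m hm
    rw [mem_Ioc] at hm
    by_cases hp : m.Prime
    · have h1 := hbad m hp hm.1 hm.2
      rw [if_neg (not_not.2 hp), mul_zero, add_zero, mul_comm]
      have : ‖DD H ((n : ℝ) / ((m : ℝ) - 1) - α)‖ ^ 2 ≤ T ^ 2 := by gcongr
      exact mul_le_mul_of_nonneg_right this (h0 m)
    · rw [if_pos hp]
      have h1 := DD_le H ((n : ℝ) / ((m : ℝ) - 1) - α)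
      have h2 : ‖DD H ((n : ℝ) / ((m : ℝ) - 1) - α)‖ ^ 2 ≤ (H : ℝ) ^ 2 := by gcongr
      have h3 := mul_le_mul_of_nonneg_left h2 (h0 m)
      have h4 : 0 ≤ T ^ 2 * ArithmeticFunction.vonMangoldt m := mul_nonneg (by positivity) (h0 m)
      linarith
  refine (sum_le_sum hterm).trans ?_
  rw [sum_add_distrib, ← mul_sum, ← mul_sum]
  have hsub : Ioc L (2 * L) ⊆ Ioc 0 (2 * L) := by
    intro m hm
    rw [mem_Ioc] at hm ⊢
    omega
  have e1 : ∑ m ∈ Ioc L (2 * L), ArithmeticFunction.vonMangoldt m ≤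
      Chebyshev.psi ((2 * L : ℕ) : ℝ) := by
    unfold Chebyshev.psi
    rw [Nat.floor_natCast]
    exact sum_le_sum_of_subset_of_nonneg hsub (fun m _ _ => h0 m)
  have e2 : ∑ m ∈ Ioc L (2 * L), (if ¬ m.Prime then ArithmeticFunction.vonMangoldt m else 0) ≤
      Chebyshev.psi ((2 * L : ℕ) : ℝ) - Chebyshev.theta ((2 * L : ℕ) : ℝ) := by
    rw [Chebyshev.psi_sub_theta_eq_sum_not_prime, Nat.floor_natCast, sum_filter]
    refine sum_le_sum_of_subset_of_nonneg hsub (fun m _ _ => ?_)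
    split_ifs
    · exact le_rfl
    · exact h0 m
  gcongr

/-- the main step -/
theorem core {L n H : ℕ} {T B : ℝ} (hL : 16 ≤ L) (hH : 1 ≤ H) (hT : 1 ≤ T)
    (hTH : T ^ 2 ≤ H / 100) (hE : ∀ h : ℕ, 1 ≤ h → h < H → ‖SL L n h‖ ≤ B) (hB0 : 0 ≤ B)
    (hB : H * B ≤ L / 8)
    (hpsi : (L : ℝ) / 2 ≤ Chebyshev.psi ((2 * L : ℕ) : ℝ) - Chebyshev.psi (L : ℝ))
    (hpsi2 : Chebyshev.psi ((2 * L : ℕ) : ℝ) ≤ 11 * L)
    (hpp : H * (Chebyshev.psi ((2 * L : ℕ) : ℝ) - Chebyshev.theta ((2 * L : ℕ) : ℝ)) ≤ L / 8) :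
    ∃ l : ℕ, l.Prime ∧ L < l ∧ l ≤ 2 * L ∧ (((n % (l - 1) : ℕ) : ℝ)) * T < (l : ℝ) - 1 := by
  by_contra hcon
  push Not at hcon
  have hT0 : 0 < T := by linarith
  have hH0 : (0 : ℝ) < H := by exact_mod_cast hH
  have hL0 : (0 : ℝ) < L := by
    have : 0 < L := by omega
    exact_mod_cast this
  set α : ℝ := 1 / (2 * T) with hα
  have hα0 : 0 < α := by positivity
  have hα1 : 2 * α = 1 / T := by
    rw [hα]
    field_simp
  have hα2 : 2 * α ≤ 1 := by
    rw [hα1, div_le_one hT0]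
    exact hT
  have hbad : ∀ l : ℕ, l.Prime → L < l → l ≤ 2 * L →
      ‖DD H ((n : ℝ) / ((l : ℝ) - 1) - α)‖ ≤ T := by
    intro l hp h1 h2
    have h3 := hcon l hp h1 h2
    have hl1 : ((l - 1 : ℕ) : ℝ) = (l : ℝ) - 1 := by
      rw [Nat.cast_sub (by omega)]
      simp
    have hl0 : (0 : ℝ) < (l : ℝ) - 1 := by
      rw [← hl1]
      have : 0 < l - 1 := by omega
      exact_mod_cast this
    have hfr : Int.fract ((n : ℝ) / ((l : ℝ) - 1)) = ((n % (l - 1) : ℕ) : ℝ) / ((l : ℝ) - 1) := by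
      rw [← hl1]
      exact Int.fract_div_natCast_eq_div_natCast_mod
    have hfr2 : 2 * α ≤ Int.fract ((n : ℝ) / ((l : ℝ) - 1)) := by
      rw [hfr, hα1, div_le_div_iff₀ hT0 hl0]
      linarith
    have hlt := Int.fract_lt_one ((n : ℝ) / ((l : ℝ) - 1))
    have hfr3 : Int.fract ((n : ℝ) / ((l : ℝ) - 1) - α) =
        Int.fract ((n : ℝ) / ((l : ℝ) - 1)) - α := by
      rw [Int.fract_eq_iff]
      refine ⟨by linarith, by linarith, ⌊(n : ℝ) / ((l : ℝ) - 1)⌋, ?_⟩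
      have := Int.floor_add_fract ((n : ℝ) / ((l : ℝ) - 1))
      linarith
    have h4 := DD_far (H := H) (x := (n : ℝ) / ((l : ℝ) - 1) - α) hα0
      (by rw [hfr3]; linarith) (by rw [hfr3]; linarith)
    refine h4.trans (le_of_eq ?_)
    rw [hα1]
    field_simp
  have h1 := lower (α := α) hE hB0
  have h2 := upper (n := n) (H := H) hbad
  have hS0 : ∑ m ∈ Ioc L (2 * L), ArithmeticFunction.vonMangoldt m =
      Chebyshev.psi ((2 * L : ℕ) : ℝ) - Chebyshev.psi (L : ℝ) := by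
    unfold Chebyshev.psi
    rw [Nat.floor_natCast, Nat.floor_natCast]
    have hdis : Ioc 0 (2 * L) = Ioc 0 L ∪ Ioc L (2 * L) := by
      ext m
      simp only [mem_union, mem_Ioc]
      omega
    rw [hdis, sum_union]
    · ring
    · rw [disjoint_left]
      intro m hm hm'
      rw [mem_Ioc] at hm hm'
      omega
  rw [hS0] at h1
  have h3 : (H : ℝ) * (L / 2) ≤ H * (Chebyshev.psi ((2 * L : ℕ) : ℝ) - Chebyshev.psi (L : ℝ)) :=
    mul_le_mul_of_nonneg_left hpsi hH0.le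
  have h4 : (H : ℝ) ^ 2 * B ≤ H * (L / 8) := by
    have := mul_le_mul_of_nonneg_left hB hH0.le
    calc (H : ℝ) ^ 2 * B = H * (H * B) := by ring
      _ ≤ _ := this
  have h5 : (H : ℝ) ^ 2 * (Chebyshev.psi ((2 * L : ℕ) : ℝ) - Chebyshev.theta ((2 * L : ℕ) : ℝ)) ≤
      H * (L / 8) := by
    have := mul_le_mul_of_nonneg_left hpp hH0.le
    calc _ = (H : ℝ) * (H * (Chebyshev.psi ((2 * L : ℕ) : ℝ) -
          Chebyshev.theta ((2 * L : ℕ) : ℝ))) := by ring
      _ ≤ _ := this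
  have h6 : T ^ 2 * Chebyshev.psi ((2 * L : ℕ) : ℝ) ≤ (H / 100) * (11 * L) :=
    mul_le_mul hTH hpsi2 (Chebyshev.psi_nonneg _) (by positivity)
  have h7 : (H : ℝ) * (L / 2) - H * (L / 8) ≤ (H / 100) * (11 * L) + H * (L / 8) := by linarith
  have h8 : (0 : ℝ) < H * L := by positivity
  nlinarith

/-- from the prime to the numbers `A` and `t` -/
theorem fin_step {n L l : ℕ} {T : ℝ} (hL : 16 ≤ L) (hT : 32 ≤ T) (hn1 : n ≤ L ^ 2)
    (hn2 : L ^ 2 ≤ 4 * n) (hTn : 16 * (n : ℝ) / T ≤ (n : ℝ) ^ (99 / 100 : ℝ))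
    (hl1 : L < l) (hl2 : l ≤ 2 * L) (h : (((n % (l - 1) : ℕ) : ℝ)) * T < (l : ℝ) - 1) :
    ∃ A t : ℕ, n = A * (l - 1) + t ∧ t < A ∧ A ≤ l ∧ (t * l : ℝ) ≤ (n : ℝ) ^ (99 / 100 : ℝ) := by
  have hT0 : 0 < T := by linarith
  have hLr : (16 : ℝ) ≤ L := by exact_mod_cast hL
  have hl2r : (l : ℝ) ≤ 2 * L := by exact_mod_cast hl2
  have hl1r : (L : ℝ) < l := by exact_mod_cast hl1
  have hn2r : (L : ℝ) ^ 2 ≤ 4 * n := by exact_mod_cast hn2
  have hcast : ((l - 1 : ℕ) : ℝ) = (l : ℝ) - 1 := by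
    rw [Nat.cast_sub (by omega)]
    simp
  have hpos : 0 < l - 1 := by omega
  set t := n % (l - 1) with ht
  set A := n / (l - 1) with hA
  have hdiv : A * (l - 1) + t = n := by
    rw [mul_comm]
    exact Nat.div_add_mod n (l - 1)
  have htT : (t : ℝ) * T < 2 * L := by linarith
  have ht32 : (t : ℝ) * 32 ≤ (t : ℝ) * T := mul_le_mul_of_nonneg_left hT (Nat.cast_nonneg t)
  have htr : (t : ℝ) < L / 16 := by linarith
  have htl : t < l - 1 := Nat.mod_lt _ hpos
  have hAlow : (L : ℝ) / 8 - 1 < A := by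
    have e1 : (n : ℝ) < ((A : ℝ) + 1) * (2 * L) := by
      have e2 : n < (A + 1) * (l - 1) := by
        rw [add_mul, one_mul]
        omega
      have e3 : (n : ℝ) < ((A : ℝ) + 1) * ((l : ℝ) - 1) := by
        rw [← hcast]
        exact_mod_cast e2
      refine lt_of_lt_of_le e3 ?_
      have : (0 : ℝ) ≤ (A : ℝ) + 1 := by positivity
      gcongr
      linarith
    have e4 : (L : ℝ) * L < (8 * ((A : ℝ) + 1)) * L := by nlinarith
    have e5 : (L : ℝ) < 8 * ((A : ℝ) + 1) := lt_of_mul_lt_mul_right e4 (by linarith)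
    linarith
  refine ⟨A, t, hdiv.symm, ?_, ?_, ?_⟩
  · have : (t : ℝ) < A := by linarith
    exact_mod_cast this
  · have h1 : A * (l - 1) ≤ L ^ 2 := by omega
    by_contra hcon
    push Not at hcon
    have h2 : L ≤ l - 1 := by omega
    have h3 : (L + 1) * L ≤ A * (l - 1) := Nat.mul_le_mul (by omega) h2
    nlinarith
  · have h1 : (t : ℝ) * l ≤ 4 * (L : ℝ) ^ 2 / T := by
      rw [le_div_iff₀ hT0]
      calc (t : ℝ) * l * T = (t * T) * l := by ring
        _ ≤ (2 * L) * (2 * L) := by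
          apply mul_le_mul htT.le hl2r (Nat.cast_nonneg l) (by linarith)
        _ = 4 * (L : ℝ) ^ 2 := by ring
    refine h1.trans (le_trans ?_ hTn)
    exact div_le_div_of_nonneg_right (by linarith) hT0.le

/-- **ALN** -/
theorem s_ALN (hE : S_EXP) : S_ALN := by
  obtain ⟨C, hC, hE⟩ := hE
  -- the functions of L
  have hrp : ∀ (a b : ℝ) (k : ℕ), 0 < a → 0 < b →
      ∀ᶠ L : ℕ in Filter.atTop, b * Real.log L ^ k ≤ (L : ℝ) ^ a := by
    intro a b k ha hb
    have ho : (fun x : ℝ => Real.log x ^ k) =o[Filter.atTop] (fun x : ℝ => x ^ a) := by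
      have := isLittleO_log_rpow_rpow_atTop (s := a) k ha
      refine this.congr (fun x => ?_) (fun x => rfl)
      exact Real.rpow_natCast (Real.log x) k
    have hb' := (ho.comp_tendsto tendsto_natCast_atTop_atTop).bound (c := 1 / b) (by positivity)
    filter_upwards [hb', Filter.eventually_ge_atTop 1] with N hN h1
    simp only [Function.comp] at hN
    have hlog : 0 ≤ Real.log N := Real.log_natCast_nonneg N
    rw [Real.norm_of_nonneg (by positivity), Real.norm_of_nonneg (by positivity)] at hN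
    calc b * Real.log N ^ k ≤ b * (1 / b * (N : ℝ) ^ a) := by gcongr
      _ = (N : ℝ) ^ a := by
        field_simp
  have hpnt := Pool.Agent.Cov.PNT.psi_div_tendsto.comp (tendsto_natCast_atTop_atTop (R := ℝ))
  have hup : ∀ᶠ L : ℕ in Filter.atTop, Chebyshev.psi (L : ℝ) ≤ (11 / 10 : ℝ) * L := by
    filter_upwards [hpnt.eventually (gt_mem_nhds (show (1 : ℝ) < 11 / 10 by norm_num)),
      Filter.eventually_ge_atTop 1] with L h1 h2
    have hL0 : (0 : ℝ) < L := by exact_mod_cast h2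
    simp only [Function.comp] at h1
    rw [div_lt_iff₀ hL0] at h1
    exact h1.le
  have hlow : ∀ᶠ L : ℕ in Filter.atTop, (9 / 10 : ℝ) * L ≤ Chebyshev.psi (L : ℝ) := by
    filter_upwards [hpnt.eventually (lt_mem_nhds (show (9 / 10 : ℝ) < 1 by norm_num)),
      Filter.eventually_ge_atTop 1] with L h1 h2
    have hL0 : (0 : ℝ) < L := by exact_mod_cast h2
    simp only [Function.comp] at h1
    rw [lt_div_iff₀ hL0] at h1
    exact h1.le
  have htwo : Filter.Tendsto (fun L : ℕ => 2 * L) Filter.atTop Filter.atTop :=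
    Filter.tendsto_atTop_mono (fun L => by simp only [id]; omega) Filter.tendsto_id
  have hall : ∀ᶠ L : ℕ in Filter.atTop, ∀ n : ℕ, n ≤ L ^ 2 → L ^ 2 ≤ 4 * n →
      ∃ l A t : ℕ, l.Prime ∧ 2 < l ∧ n = A * (l - 1) + t ∧
      t < A ∧ A ≤ l ∧ (t * l : ℝ) ≤ (n : ℝ) ^ (99 / 100 : ℝ) := by
    filter_upwards [hup, htwo.eventually hup, htwo.eventually hlow, hrp (9 / 10) 4 0 (by norm_num)
      (by norm_num), hrp (1 / 120) (8 * C) 3 (by norm_num) (by positivity),
      hrp (9 / 20) 64 1 (by norm_num) (by norm_num), hrp (1 / 40) 480 0 (by norm_num)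
      (by norm_num), hrp (1 / 200) 240 0 (by norm_num) (by norm_num),
      Filter.eventually_ge_atTop 16] with L a1 a2 a3 a4 a5 a6 a7 a8 a9
    intro n hn1 hn2
    rw [pow_zero, mul_one] at a4 a7 a8
    rw [pow_one] at a6
    have hL16 : (16 : ℝ) ≤ L := by exact_mod_cast a9
    have hL0 : (0 : ℝ) < L := by linarith
    have hL1 : (1 : ℝ) ≤ L := by linarith
    set x : ℝ := (L : ℝ) ^ (1 / 40 : ℝ) with hx
    have hx0 : 0 < x := by positivity
    have hx2 : x ^ 2 = (L : ℝ) ^ (1 / 20 : ℝ) := by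
      rw [hx, ← Real.rpow_natCast, ← Real.rpow_mul hL0.le]
      norm_num
    set H : ℕ := ⌊(L : ℝ) ^ (1 / 20 : ℝ)⌋₊ with hH
    have hH1 : (H : ℝ) ≤ x ^ 2 := by
      rw [hx2]
      exact Nat.floor_le (by positivity)
    have hH2 : x ^ 2 - 1 < H := by
      rw [hx2]
      exact Nat.sub_one_lt_floor _
    have hHx : x ^ 2 / 2 ≤ H := by nlinarith
    have hHpos : (0 : ℝ) < H := by
      have : 0 < x ^ 2 / 2 := by positivity
      linarith
    have hH1n : 1 ≤ H := by exact_mod_cast hHpos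
    set T : ℝ := x / 15 with hT
    have hT32 : 32 ≤ T := by
      rw [hT]
      linarith
    have hTH : T ^ 2 ≤ H / 100 := by
      rw [hT, div_pow]
      have : x ^ 2 / 15 ^ 2 ≤ (x ^ 2 / 2) / 100 := by
        have := sq_nonneg x
        linarith
      linarith
    -- the exponential sums
    set B : ℝ := C * (L : ℝ) ^ (11 / 12 : ℝ) * x * (Real.log L) ^ 3 with hB
    have hlog0 : 0 ≤ Real.log L := Real.log_natCast_nonneg L
    have hB0 : 0 ≤ B := by positivity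
    have h4H : 4 * (H : ℝ) ^ 2 ≤ L := by
      have e1 : (H : ℝ) ^ 2 ≤ (x ^ 2) ^ 2 := by gcongr
      have e2 : (x ^ 2) ^ 2 = (L : ℝ) ^ (1 / 10 : ℝ) := by
        rw [hx2, ← Real.rpow_natCast, ← Real.rpow_mul hL0.le]
        norm_num
      have e3 : (L : ℝ) ^ (9 / 10 : ℝ) * (L : ℝ) ^ (1 / 10 : ℝ) = L := by
        rw [← Real.rpow_add hL0]
        norm_num
      calc 4 * (H : ℝ) ^ 2 ≤ (L : ℝ) ^ (9 / 10 : ℝ) * (L : ℝ) ^ (1 / 10 : ℝ) := by
            rw [← e2]
            gcongr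
        _ = L := e3
    have hEB : ∀ h : ℕ, 1 ≤ h → h < H → ‖SL L n h‖ ≤ B := by
      intro h h1 h2
      have h3 : 4 * h ^ 2 ≤ L := by
        have : (4 : ℝ) * (h : ℝ) ^ 2 ≤ L := by
          refine le_trans ?_ h4H
          have : (h : ℝ) ≤ H := by exact_mod_cast h2.le
          gcongr
        exact_mod_cast this
      have h4 := hE L n h (by omega) (by nlinarith) hn1 h1 h3
      have h5 : SL L n h = ∑ m ∈ Ioc L (2 * L), ((ArithmeticFunction.vonMangoldt m : ℝ) : ℂ) *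
          ex ((h * n : ℝ) / ((m : ℝ) - 1)) := by
        unfold SL
        refine sum_congr rfl fun m _ => ?_
        rw [ex_eq]
        push_cast
        rfl
      rw [h5]
      refine h4.trans ?_
      have h6 : Real.sqrt h ≤ x := by
        rw [show x = Real.sqrt (x ^ 2) from (Real.sqrt_sq hx0.le).symm]
        apply Real.sqrt_le_sqrt
        have : (h : ℝ) ≤ H := by exact_mod_cast h2.le
        linarith
      rw [hB]
      gcongr
    have hHB : (H : ℝ) * B ≤ L / 8 := by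
      have e1 : (H : ℝ) * B ≤ x ^ 2 * B := by gcongr
      have e2 : x ^ 2 * B = ((8 * C) * Real.log L ^ 3) * ((x ^ 2 * x) * (L : ℝ) ^ (11 / 12 : ℝ)) / 8 := by
        rw [hB]
        ring
      have e3 : (x ^ 2 * x) * (L : ℝ) ^ (11 / 12 : ℝ) = (L : ℝ) ^ (119 / 120 : ℝ) := by
        rw [hx2, hx, ← Real.rpow_add hL0, ← Real.rpow_add hL0]
        norm_num
      have e4 : (L : ℝ) ^ (1 / 120 : ℝ) * (L : ℝ) ^ (119 / 120 : ℝ) = L := by
        rw [← Real.rpow_add hL0]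
        norm_num
      refine e1.trans ?_
      rw [e2, e3]
      have : ((8 * C) * Real.log L ^ 3) * (L : ℝ) ^ (119 / 120 : ℝ) ≤ L := by
        calc _ ≤ (L : ℝ) ^ (1 / 120 : ℝ) * (L : ℝ) ^ (119 / 120 : ℝ) := by gcongr
          _ = L := e4
      linarith
    have hc2 : ((2 * L : ℕ) : ℝ) = 2 * L := by push_cast; rfl
    have hpp : (H : ℝ) * (Chebyshev.psi ((2 * L : ℕ) : ℝ) - Chebyshev.theta ((2 * L : ℕ) : ℝ)) ≤
        L / 8 := by
      have e1 := Chebyshev.psi_sub_theta_le (x := ((2 * L : ℕ) : ℝ)) (by rw [hc2]; linarith)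
      have e2 : Real.sqrt ((2 * L : ℕ) : ℝ) ≤ 2 * Real.sqrt L := by
        have e0 : (2 : ℝ) * Real.sqrt L = Real.sqrt (2 ^ 2 * L) := by
          rw [Real.sqrt_mul (by norm_num), Real.sqrt_sq (by norm_num)]
        rw [hc2, e0]
        apply Real.sqrt_le_sqrt
        linarith
      have e3 : Real.log ((2 * L : ℕ) : ℝ) ≤ 2 * Real.log L := by
        rw [hc2, Real.log_mul (by norm_num) hL0.ne']
        have : Real.log 2 ≤ Real.log L := Real.log_le_log (by norm_num) (by linarith)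
        linarith
      have e4 : 2 * Real.sqrt ((2 * L : ℕ) : ℝ) * Real.log ((2 * L : ℕ) : ℝ) ≤
          2 * (2 * Real.sqrt L) * (2 * Real.log L) := by
        have : 0 ≤ Real.log ((2 * L : ℕ) : ℝ) := Real.log_natCast_nonneg _
        gcongr
      have e5 : x ^ 2 * Real.sqrt L = (L : ℝ) ^ (11 / 20 : ℝ) := by
        rw [hx2, Real.sqrt_eq_rpow, ← Real.rpow_add hL0]
        norm_num
      have e6 : (L : ℝ) ^ (9 / 20 : ℝ) * (L : ℝ) ^ (11 / 20 : ℝ) = L := by
        rw [← Real.rpow_add hL0]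
        norm_num
      have e7 : 0 ≤ Chebyshev.psi ((2 * L : ℕ) : ℝ) - Chebyshev.theta ((2 * L : ℕ) : ℝ) := by
        have := Chebyshev.theta_le_psi ((2 * L : ℕ) : ℝ)
        linarith
      calc (H : ℝ) * (Chebyshev.psi ((2 * L : ℕ) : ℝ) - Chebyshev.theta ((2 * L : ℕ) : ℝ))
          ≤ x ^ 2 * (2 * (2 * Real.sqrt L) * (2 * Real.log L)) := by
            have := e1.trans e4
            gcongr
        _ = (64 * Real.log L) * (x ^ 2 * Real.sqrt L) / 8 := by ring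
        _ ≤ ((L : ℝ) ^ (9 / 20 : ℝ) * (L : ℝ) ^ (11 / 20 : ℝ)) / 8 := by
            rw [e5]
            gcongr
        _ = L / 8 := by rw [e6]
    obtain ⟨l, hl, hl1, hl2, hlt⟩ := core (L := L) (n := n) (H := H) (T := T) (B := B) a9 hH1n
      (by linarith) hTH hEB hB0 hHB (by rw [hc2] at a3 ⊢; linarith)
      (by rw [hc2] at a2 ⊢; linarith) hpp
    have hTn : 16 * (n : ℝ) / T ≤ (n : ℝ) ^ (99 / 100 : ℝ) := by
      have hn0 : (0 : ℝ) < n := by
        have : (L : ℝ) ^ 2 ≤ 4 * n := by exact_mod_cast hn2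
        have : (0 : ℝ) < (L : ℝ) ^ 2 := by positivity
        linarith
      have hnL : (n : ℝ) ≤ (L : ℝ) ^ 2 := by exact_mod_cast hn1
      have e1 : (n : ℝ) ^ (1 / 100 : ℝ) ≤ (L : ℝ) ^ (1 / 50 : ℝ) := by
        calc (n : ℝ) ^ (1 / 100 : ℝ) ≤ ((L : ℝ) ^ 2) ^ (1 / 100 : ℝ) := by
              apply Real.rpow_le_rpow hn0.le hnL (by norm_num)
          _ = (L : ℝ) ^ (1 / 50 : ℝ) := by
              rw [← Real.rpow_natCast, ← Real.rpow_mul hL0.le]
              norm_num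
      have e2 : 240 * (L : ℝ) ^ (1 / 50 : ℝ) ≤ x := by
        calc 240 * (L : ℝ) ^ (1 / 50 : ℝ) ≤ (L : ℝ) ^ (1 / 200 : ℝ) * (L : ℝ) ^ (1 / 50 : ℝ) := by
              gcongr
          _ = x := by
              rw [← Real.rpow_add hL0, hx]
              norm_num
      have e3 : (n : ℝ) ^ (99 / 100 : ℝ) * (n : ℝ) ^ (1 / 100 : ℝ) = n := by
        rw [← Real.rpow_add hn0]
        norm_num
      rw [div_le_iff₀ (by linarith), hT]
      have e4 : (0 : ℝ) ≤ (n : ℝ) ^ (99 / 100 : ℝ) := by positivity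
      calc 16 * (n : ℝ) = (n : ℝ) ^ (99 / 100 : ℝ) * (16 * (n : ℝ) ^ (1 / 100 : ℝ)) := by
            rw [← mul_assoc, mul_comm ((n : ℝ) ^ (99 / 100 : ℝ)) 16, mul_assoc, e3]
        _ ≤ (n : ℝ) ^ (99 / 100 : ℝ) * (x / 15) := by
            apply mul_le_mul_of_nonneg_left _ e4
            linarith
    obtain ⟨A, t, h1, h2, h3, h4⟩ := fin_step a9 hT32 hn1 hn2 hTn hl1 hl2 hlt
    exact ⟨l, A, t, hl, by omega, h1, h2, h3, h4⟩
  obtain ⟨L0, hL0⟩ := Filter.eventually_atTop.1 hall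
  refine ⟨L0 ^ 2 + 16, ?_⟩
  intro n hn
  -- L is the least number with n ≤ L ^ 2
  have hs1 : Nat.sqrt n * Nat.sqrt n ≤ n := Nat.sqrt_le n
  have hs2 : n < (Nat.sqrt n + 1) * (Nat.sqrt n + 1) := Nat.lt_succ_sqrt n
  have hs3 : L0 ≤ Nat.sqrt n := by
    rw [Nat.le_sqrt]
    nlinarith
  have hs4 : 4 ≤ Nat.sqrt n := by
    rw [Nat.le_sqrt]
    nlinarith
  exact hL0 (Nat.sqrt n + 1) (by omega) n (by nlinarith) (by nlinarith)

end Pool.Agent.L7h25.BP
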