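import Mathlib
import Pool.Agent.L7h58.BP.Stm

set_option autoImplicit false

/-!
# Project BP, part LSV
-/

namespace Pool.Agent.L7h25.BP

open Finset
open Pool.Agent.L7h58.BP

/-- The elementary part: a number `n` which is hit by a sum of two small numbers is good. -/
theorem good_of_W {N L U m n : ℕ} {y : ℝ} (hy : y = Real.log N) (hy1 : 128 ≤ y)
    (hN : 9 ≤ N) (hs : 1000 * y ^ 8 ≤ Real.sqrt N)
    (hL1 : Real.sqrt N + 2 ≤ L) (hL2 : (L : ℝ) ≤ Real.sqrt N + 3)
    (hU2 : (U : ℝ) ≤ y ^ 5 + 1)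
    (hm : (m + 1).Prime) (hm1 : L ≤ m) (hm2 : m + 1 ≤ 16 * L)
    (hn1 : (N : ℝ) / y ^ 2 < n) (hn2 : n ≤ N) (hW : W U m n ≠ 0) : Good N n := by
  have hsq : Real.sqrt N * Real.sqrt N = N := Real.mul_self_sqrt (by positivity)
  have hs3 : 3 ≤ Real.sqrt N := by
    rw [show (3 : ℝ) = Real.sqrt 9 by
      rw [show (9 : ℝ) = 3 ^ 2 by norm_num, Real.sqrt_sq (by norm_num)]]
    apply Real.sqrt_le_sqrt
    exact_mod_cast hN
  have hy0 : 0 < y := by linarith
  have hy5 : 1 ≤ y ^ 5 := one_le_pow₀ (by linarith)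
  have h58 : y ^ 5 ≤ y ^ 8 := pow_le_pow_right₀ (by linarith) (by norm_num)
  have h56 : y ^ 5 * 128 ≤ y ^ 6 := by
    rw [pow_succ y 5]
    gcongr
  have hUL : (2 : ℝ) * U < L := by linarith
  have hm1r : (L : ℝ) ≤ m := by exact_mod_cast hm1
  have hm2r : (m : ℝ) + 1 ≤ 16 * L := by exact_mod_cast hm2
  -- the two small numbers
  have hne : (((range U) ×ˢ (range U)).filter (fun s => (s.1 + s.2) % m = n % m)).Nonempty := by
    rw [← card_pos]
    unfold W at hW
    omega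
  obtain ⟨⟨s, s'⟩, hss⟩ := hne
  rw [mem_filter, mem_product, mem_range, mem_range] at hss
  obtain ⟨⟨h1, h2⟩, h3⟩ := hss
  simp only at h1 h2 h3
  have hm0 : 0 < m := by
    have : (0 : ℝ) < m := by linarith
    exact_mod_cast this
  have hULn : 2 * U < L := by exact_mod_cast hUL
  have hlt : s + s' < m := by omega
  rw [Nat.mod_eq_of_lt hlt] at h3
  have hdiv := Nat.div_add_mod n m
  have hA2 : 2 * U ≤ n / m := by
    have e1 : (n : ℝ) < ((n / m : ℕ) + 1) * m := by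
      have : n < (n / m + 1) * m := by
        rw [mul_comm]
        exact Nat.lt_mul_div_succ n hm0
      exact_mod_cast this
    have e2 : (n : ℝ) < ((n / m : ℕ) + 1) * (32 * Real.sqrt N) := by
      refine lt_of_lt_of_le e1 ?_
      gcongr
      linarith
    have e3 : (31 : ℝ) * y ^ 6 * y ^ 2 * (32 * Real.sqrt N) ≤ N := by
      have : (31 : ℝ) * y ^ 6 * y ^ 2 * (32 * Real.sqrt N) = 992 * y ^ 8 * Real.sqrt N := by ring
      rw [this]
      calc 992 * y ^ 8 * Real.sqrt N ≤ Real.sqrt N * Real.sqrt N := by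
            apply mul_le_mul_of_nonneg_right _ (Real.sqrt_nonneg _)
            have : 0 ≤ y ^ 8 := by positivity
            linarith
        _ = N := hsq
    have e4 : (31 : ℝ) * y ^ 6 * (32 * Real.sqrt N) ≤ N / y ^ 2 := by
      rw [le_div_iff₀ (by positivity)]
      linarith
    have e5 : (31 : ℝ) * y ^ 6 < (n / m : ℕ) + 1 := by
      have : (31 : ℝ) * y ^ 6 * (32 * Real.sqrt N) < ((n / m : ℕ) + 1) * (32 * Real.sqrt N) := by
        linarith
      exact lt_of_mul_lt_mul_right this (by positivity)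
    have e6 : (2 : ℝ) * U < (n / m : ℕ) + 1 := by linarith
    have : 2 * U < n / m + 1 := by exact_mod_cast e6
    omega
  have hNm : N ≤ m * m := by
    have : (N : ℝ) ≤ m * m := by
      rw [← hsq]
      have : Real.sqrt N ≤ m := by linarith
      exact mul_self_le_mul_self (Real.sqrt_nonneg _) this
    exact_mod_cast this
  have hAm : n / m ≤ m := Nat.div_le_of_le_mul (hn2.trans hNm)
  refine ⟨m + 1, n / m, s + s', hm, ?_, ?_, ?_, ?_, ?_⟩
  · have : (3 : ℝ) < L := by linarith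
    have : 3 < L := by exact_mod_cast this
    omega
  · rw [Nat.add_sub_cancel, mul_comm, h3]
    exact hdiv.symm
  · omega
  · omega
  · have e1 : ((s + s' : ℕ) : ℝ) ≤ 2 * U := by
      have : s + s' ≤ 2 * U := by omega
      exact_mod_cast this
    have e2 : ((m + 1 : ℕ) : ℝ) ≤ 32 * Real.sqrt N := by
      push_cast
      linarith
    calc ((s + s' : ℕ) : ℝ) * ((m + 1 : ℕ) : ℝ) ≤ (2 * U) * (32 * Real.sqrt N) := by gcongr
      _ ≤ (4 * y ^ 5) * (32 * Real.sqrt N) :=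
        mul_le_mul_of_nonneg_right (by linarith) (by positivity)
      _ = (y ^ 5 * 128) * Real.sqrt N := by ring
      _ ≤ y ^ 6 * Real.sqrt N := by
        gcongr
      _ = Real.sqrt N * Real.log N ^ 6 := by
        rw [hy]
        ring

/-- The count for one large `N`. -/
theorem large_N {K c : ℝ} (hK : 0 < K) (hc : 0 < c)
    (hV : ∀ (N L U : ℕ) (M : Finset ℕ), 2 ≤ U → 2 ≤ L →
      (∀ m ∈ M, L ≤ m ∧ m ≤ 16 * L) →
      ∑ n ∈ range (N + 1), (∑ m ∈ M, ((W U m n : ℝ) - (U : ℝ) ^ 2 / m)) ^ 2 ≤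
        K * (N + (L : ℝ) ^ 2) * (U : ℝ) ^ 3 * Real.log L)
    {N L U : ℕ} {y : ℝ} (hy : y = Real.log N) (hy1 : 128 ≤ y)
    (hN : 9 ≤ N) (hs : 1000 * y ^ 8 ≤ Real.sqrt N)
    (hL1 : Real.sqrt N + 2 ≤ L) (hL2 : (L : ℝ) ≤ Real.sqrt N + 3)
    (hU1 : y ^ 5 ≤ U) (hU2 : (U : ℝ) ≤ y ^ 5 + 1)
    (hP : c * L / Real.log L ≤ (((Ioc L (16 * L)).filter Nat.Prime).card : ℝ)) :
    (Nat.card {n : ℕ // 1 ≤ n ∧ n ≤ N ∧ ¬ Good N n} : ℝ) ≤ (1 + 1280 * K / c ^ 2) * N / y ^ 2 := by
  classical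
  have hsq : Real.sqrt N * Real.sqrt N = N := Real.mul_self_sqrt (by positivity)
  have hs3 : 3 ≤ Real.sqrt N := by
    rw [show (3 : ℝ) = Real.sqrt 9 by
      rw [show (9 : ℝ) = 3 ^ 2 by norm_num, Real.sqrt_sq (by norm_num)]]
    apply Real.sqrt_le_sqrt
    exact_mod_cast hN
  have hy0 : 0 < y := by linarith
  have hy5 : 128 ≤ y ^ 5 := by
    have : y ^ 1 ≤ y ^ 5 := pow_le_pow_right₀ (by linarith) (by norm_num)
    rw [pow_one] at this
    linarith
  have hU0 : (128 : ℝ) ≤ U := by linarith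
  have hU2' : 2 ≤ U := by
    have : (2 : ℝ) ≤ U := by linarith
    exact_mod_cast this
  have hL5 : (5 : ℝ) ≤ L := by linarith
  have hL2' : 2 ≤ L := by
    have : (2 : ℝ) ≤ L := by linarith
    exact_mod_cast this
  have hlogL : 0 < Real.log L := Real.log_pos (by linarith)
  have hLN : (L : ℝ) ≤ N := by nlinarith
  have hlogLN : Real.log L ≤ y := by
    rw [hy]
    exact Real.log_le_log (by linarith) hLN
  set M : Finset ℕ := ((Ioc L (16 * L)).filter Nat.Prime).image (fun l => l - 1) with hMdef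
  have hM : ∀ m ∈ M, (m + 1).Prime ∧ L ≤ m ∧ m + 1 ≤ 16 * L := by
    intro m hm
    rw [hMdef, mem_image] at hm
    obtain ⟨l, hl, rfl⟩ := hm
    rw [mem_filter, mem_Ioc] at hl
    obtain ⟨⟨h1, h2⟩, h3⟩ := hl
    have h4 : l - 1 + 1 = l := by omega
    rw [h4]
    exact ⟨h3, by omega, h2⟩
  have hcardM : M.card = ((Ioc L (16 * L)).filter Nat.Prime).card := by
    rw [hMdef]
    apply card_image_of_injOn
    intro a ha b hb hab
    rw [mem_coe, mem_filter, mem_Ioc] at ha hb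
    have : a - 1 = b - 1 := hab
    omega
  set E : ℝ := ∑ m ∈ M, (U : ℝ) ^ 2 / m with hE
  have hElow : c / 16 * (U : ℝ) ^ 2 / Real.log L ≤ E := by
    have h1 : ∑ m ∈ M, (U : ℝ) ^ 2 / (16 * L) ≤ E := by
      apply sum_le_sum
      intro m hm
      obtain ⟨-, h2, h3⟩ := hM m hm
      have hm0 : (0 : ℝ) < m := by
        have : (L : ℝ) ≤ m := by exact_mod_cast h2
        linarith
      apply div_le_div_of_nonneg_left (by positivity) hm0
      have : m ≤ 16 * L := by omega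
      exact_mod_cast this
    rw [sum_const, nsmul_eq_mul, hcardM] at h1
    refine le_trans ?_ h1
    calc c / 16 * (U : ℝ) ^ 2 / Real.log L = c * L / Real.log L * ((U : ℝ) ^ 2 / (16 * L)) := by
          field_simp
      _ ≤ _ := by gcongr
  have hE0 : 0 < E := lt_of_lt_of_le (by positivity) hElow
  set B := (range (N + 1)).filter (fun n => 1 ≤ n ∧ ¬ Good N n) with hB
  have hcard : Nat.card {n : ℕ // 1 ≤ n ∧ n ≤ N ∧ ¬ Good N n} = B.card := by
    apply Nat.subtype_card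
    intro n
    rw [hB, mem_filter, mem_range]
    constructor
    · rintro ⟨h1, h2, h3⟩
      exact ⟨h2, by omega, h3⟩
    · rintro ⟨h1, h2, h3⟩
      exact ⟨by omega, h1, h3⟩
  rw [hcard]
  have hsplit : B.card = (B.filter (fun n : ℕ => (n : ℝ) ≤ N / y ^ 2)).card +
      (B.filter (fun n : ℕ => ¬ (n : ℝ) ≤ N / y ^ 2)).card :=
    (card_filter_add_card_filter_not _).symm
  -- the small ones
  have hsmall : ((B.filter (fun n : ℕ => (n : ℝ) ≤ N / y ^ 2)).card : ℝ) ≤ N / y ^ 2 := by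
    have h1 : (B.filter (fun n : ℕ => (n : ℝ) ≤ N / y ^ 2)) ⊆ Ioc 0 ⌊(N : ℝ) / y ^ 2⌋₊ := by
      intro n hn
      rw [mem_filter, hB, mem_filter] at hn
      rw [mem_Ioc]
      exact ⟨by omega, Nat.le_floor hn.2⟩
    have h2 := card_le_card h1
    rw [Nat.card_Ioc, Nat.sub_zero] at h2
    calc ((B.filter (fun n : ℕ => (n : ℝ) ≤ N / y ^ 2)).card : ℝ) ≤ ⌊(N : ℝ) / y ^ 2⌋₊ := by
          exact_mod_cast h2
      _ ≤ _ := Nat.floor_le (by positivity)
  -- the large ones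
  set B2 := (B.filter (fun n : ℕ => ¬ (n : ℝ) ≤ N / y ^ 2)) with hB2
  have hlarge : (B2.card : ℝ) * E ^ 2 ≤ K * (N + (L : ℝ) ^ 2) * (U : ℝ) ^ 3 * Real.log L := by
    refine le_trans ?_ (hV N L U M hU2' hL2' (fun m hm => ⟨(hM m hm).2.1, by
      have := (hM m hm).2.2
      omega⟩))
    have h1 : (B2.card : ℝ) * E ^ 2 = ∑ n ∈ B2, (∑ m ∈ M, ((W U m n : ℝ) - (U : ℝ) ^ 2 / m)) ^ 2 := by
      rw [← nsmul_eq_mul, ← sum_const]
      refine sum_congr rfl fun n hn => ?_
      rw [hB2, mem_filter, hB, mem_filter, mem_range] at hn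
      obtain ⟨⟨h2, h3, h4⟩, h5⟩ := hn
      have h6 : ∑ m ∈ M, ((W U m n : ℝ) - (U : ℝ) ^ 2 / m) = ∑ m ∈ M, (-((U : ℝ) ^ 2 / m)) := by
        refine sum_congr rfl fun m hm => ?_
        have h7 : W U m n = 0 := by
          by_contra h8
          apply h4
          exact good_of_W hy hy1 hN hs hL1 hL2 hU2 (hM m hm).1 (hM m hm).2.1 (hM m hm).2.2
            (not_le.1 h5) (by omega) h8
        rw [h7]
        simp
      rw [h6, sum_neg_distrib, neg_sq]
    rw [h1]
    apply sum_le_sum_of_subset_of_nonneg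
    · intro n hn
      rw [hB2, mem_filter, hB, mem_filter] at hn
      exact hn.1.1
    · intro n _ _
      positivity
  have hkey : (B2.card : ℝ) ≤ 1280 * K / c ^ 2 * N / y ^ 2 := by
    have h1 : (B2.card : ℝ) * (c / 16 * (U : ℝ) ^ 2 / Real.log L) ^ 2 ≤
        K * (N + (L : ℝ) ^ 2) * (U : ℝ) ^ 3 * Real.log L := by
      refine le_trans ?_ hlarge
      gcongr
    have h2 : (B2.card : ℝ) * (c / 16 * (U : ℝ) ^ 2 / Real.log L) ^ 2 =
        ((B2.card : ℝ) * c ^ 2 * U) * ((U : ℝ) ^ 3 / (256 * Real.log L ^ 2)) := by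
      field_simp
      norm_num
    rw [h2] at h1
    have h3 : K * (N + (L : ℝ) ^ 2) * (U : ℝ) ^ 3 * Real.log L =
        (256 * K * (N + (L : ℝ) ^ 2) * Real.log L ^ 3) * ((U : ℝ) ^ 3 / (256 * Real.log L ^ 2)) := by
      field_simp
    rw [h3] at h1
    have h4 : (B2.card : ℝ) * c ^ 2 * U ≤ 256 * K * (N + (L : ℝ) ^ 2) * Real.log L ^ 3 :=
      le_of_mul_le_mul_right h1 (by positivity)
    have hLL : (L : ℝ) ^ 2 ≤ 4 * N := by
      have : (L : ℝ) ≤ 2 * Real.sqrt N := by linarith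
      calc (L : ℝ) ^ 2 ≤ (2 * Real.sqrt N) ^ 2 := by gcongr
        _ = 4 * (Real.sqrt N * Real.sqrt N) := by ring
        _ = 4 * N := by rw [hsq]
    have h5 : (B2.card : ℝ) * c ^ 2 * y ^ 5 ≤ 1280 * K * N * y ^ 3 := by
      calc (B2.card : ℝ) * c ^ 2 * y ^ 5 ≤ (B2.card : ℝ) * c ^ 2 * U := by gcongr
        _ ≤ 256 * K * (N + (L : ℝ) ^ 2) * Real.log L ^ 3 := h4
        _ ≤ 256 * K * (N + 4 * N) * y ^ 3 := by gcongr
        _ = 1280 * K * N * y ^ 3 := by ring
    have h6 : (B2.card : ℝ) * c ^ 2 * y ^ 2 ≤ 1280 * K * N := by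
      have e : ((B2.card : ℝ) * c ^ 2 * y ^ 2) * y ^ 3 ≤ (1280 * K * N) * y ^ 3 := by
        calc ((B2.card : ℝ) * c ^ 2 * y ^ 2) * y ^ 3 = (B2.card : ℝ) * c ^ 2 * y ^ 5 := by ring
          _ ≤ _ := h5
      exact le_of_mul_le_mul_right e (by positivity)
    have e2 : 1280 * K / c ^ 2 * N / y ^ 2 = (1280 * K * N) / (c ^ 2 * y ^ 2) := by
      field_simp
    rw [e2, le_div_iff₀ (by positivity)]
    linarith
  rw [hsplit]
  push_cast
  calc ((B.filter (fun n : ℕ => (n : ℝ) ≤ N / y ^ 2)).card : ℝ) + (B2.card : ℝ)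
      ≤ N / y ^ 2 + 1280 * K / c ^ 2 * N / y ^ 2 := add_le_add hsmall hkey
    _ = (1 + 1280 * K / c ^ 2) * N / y ^ 2 := by ring

/-- **LSV** -/
theorem s_LSV (hV : S_VAR) (hP : S_PRC) : S_LSV := by
  obtain ⟨K, hK, hV⟩ := hV
  obtain ⟨c, hc, hP⟩ := hP
  -- all the conditions hold for large N
  have hlogt : Filter.Tendsto (fun N : ℕ => Real.log N) Filter.atTop Filter.atTop :=
    Real.tendsto_log_atTop.comp tendsto_natCast_atTop_atTop
  have hsqt : Filter.Tendsto (fun N : ℕ => Real.sqrt N) Filter.atTop Filter.atTop :=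
    Real.tendsto_sqrt_atTop.comp tendsto_natCast_atTop_atTop
  have h1 : ∀ᶠ N : ℕ in Filter.atTop, 128 ≤ Real.log N := hlogt.eventually_ge_atTop 128
  have h2 : ∀ᶠ N : ℕ in Filter.atTop, 9 ≤ N := Filter.eventually_ge_atTop 9
  have h3 : ∀ᶠ N : ℕ in Filter.atTop, 1000 * Real.log N ^ 8 ≤ Real.sqrt N := by
    have ho : (fun x : ℝ => Real.log x ^ 8) =o[Filter.atTop] (fun x : ℝ => Real.sqrt x) := by
      have := isLittleO_log_rpow_rpow_atTop (s := 1 / 2) 8 (by norm_num)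
      refine (this.congr (fun x => ?_) (fun x => ?_))
      · exact Real.rpow_natCast (Real.log x) 8
      · rw [Real.sqrt_eq_rpow]
    have hb := (ho.comp_tendsto tendsto_natCast_atTop_atTop).bound (c := 1 / 1000) (by norm_num)
    filter_upwards [hb] with N hN
    simp only [Function.comp] at hN
    rw [Real.norm_of_nonneg (by positivity), Real.norm_of_nonneg (by positivity)] at hN
    linarith
  have hLt : Filter.Tendsto (fun N : ℕ => ⌈Real.sqrt N⌉₊ + 2) Filter.atTop Filter.atTop :=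
    Filter.tendsto_atTop_mono (fun N => Nat.le_add_right _ 2) (tendsto_nat_ceil_atTop.comp hsqt)
  have h4 := hLt.eventually hP
  obtain ⟨N0, hN0⟩ := Filter.eventually_atTop.1 (h1.and (h2.and (h3.and h4)))
  have hlN0 : 0 ≤ Real.log N0 := Real.log_natCast_nonneg N0
  refine ⟨(1 + 1280 * K / c ^ 2) + Real.log N0 ^ 2, by positivity, ?_⟩
  intro N hN
  have hyN : 0 < Real.log N := Real.log_pos (by exact_mod_cast (by omega : 1 < N))
  by_cases hc1 : N0 ≤ N
  · obtain ⟨a1, a2, a3, a4⟩ := hN0 N hc1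
    have hceil1 : Real.sqrt N ≤ ⌈Real.sqrt N⌉₊ := Nat.le_ceil _
    have hceil2 : (⌈Real.sqrt N⌉₊ : ℝ) < Real.sqrt N + 1 := Nat.ceil_lt_add_one (by positivity)
    have hceil3 : Real.log N ^ 5 ≤ ⌈Real.log N ^ 5⌉₊ := Nat.le_ceil _
    have hceil4 : (⌈Real.log N ^ 5⌉₊ : ℝ) < Real.log N ^ 5 + 1 :=
      Nat.ceil_lt_add_one (by positivity)
    have h := large_N hK hc hV (N := N) (L := ⌈Real.sqrt N⌉₊ + 2) (U := ⌈Real.log N ^ 5⌉₊)
      rfl a1 a2 a3 (by push_cast; linarith) (by push_cast; linarith) hceil3 hceil4.le a4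
    refine h.trans ?_
    have h0 : 0 ≤ Real.log N0 ^ 2 := by positivity
    have h11 : 1 + 1280 * K / c ^ 2 ≤ (1 + 1280 * K / c ^ 2) + Real.log N0 ^ 2 := by linarith
    exact div_le_div_of_nonneg_right (mul_le_mul_of_nonneg_right h11 (Nat.cast_nonneg N))
      (by positivity)
  · have h5 : (Nat.card {n : ℕ // 1 ≤ n ∧ n ≤ N ∧ ¬ Good N n} : ℝ) ≤ N := by
      have h6 : Nat.card {n : ℕ // 1 ≤ n ∧ n ≤ N ∧ ¬ Good N n} ≤ Nat.card (Fin N) := by
        apply Nat.card_le_card_of_injective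
          (fun n : {n : ℕ // 1 ≤ n ∧ n ≤ N ∧ ¬ Good N n} => (⟨n.1 - 1, by
            have := n.2
            omega⟩ : Fin N))
        intro a b hab
        have h7 : a.1 - 1 = b.1 - 1 := congrArg Fin.val hab
        apply Subtype.ext
        have := a.2
        have := b.2
        omega
      rw [Nat.card_fin] at h6
      exact_mod_cast h6
    refine h5.trans ?_
    rw [le_div_iff₀ (by positivity)]
    have h8 : Real.log N ≤ Real.log N0 := by
      apply Real.log_le_log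
      · exact_mod_cast (by omega : 0 < N)
      · exact_mod_cast (by omega : N ≤ N0)
    have h9 : Real.log N ^ 2 ≤ Real.log N0 ^ 2 := by gcongr
    have h10 : (0 : ℝ) < 1 + 1280 * K / c ^ 2 := by positivity
    calc (N : ℝ) * Real.log N ^ 2 ≤ N * ((1 + 1280 * K / c ^ 2) + Real.log N0 ^ 2) := by
          gcongr
          linarith
      _ = _ := by ring

end Pool.Agent.L7h25.BP
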